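import Pool.Agent.Helper5.KPA.StT

set_option autoImplicit false

namespace Pool.Agent.Helper76.KPA

open Pool.Agent.Helper5.KPA Pool.Agent.Helper52.KP MvPolynomial

section Euler

/-- Euler's formula for a polynomial with simple roots. -/
private lemma euler (f R : Polynomial ℂ) (δ : ℕ) (hδ : f.natDegree = δ) (hpos : 0 < δ)
    (hd : ∀ t, Polynomial.eval t f = 0 → Polynomial.eval t (Polynomial.derivative f) ≠ 0)
    (hR : R.degree < δ) :
    f.roots.toFinset.card = δ ∧
    ∑ t ∈ f.roots.toFinset, f.leadingCoeff * Polynomial.eval t R /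
      Polynomial.eval t (Polynomial.derivative f) = R.coeff (δ - 1) := by
  classical
  have hf0 : f ≠ 0 := by
    rintro rfl
    simp at hδ
    omega
  have hlc : f.leadingCoeff ≠ 0 := Polynomial.leadingCoeff_ne_zero.mpr hf0
  have hnd : f.roots.Nodup := by
    rw [Multiset.nodup_iff_count_le_one]
    intro t
    rw [Polynomial.count_roots]
    by_contra hcon
    push Not at hcon
    have h2 := (Polynomial.one_lt_rootMultiplicity_iff_isRoot hf0).mp hcon
    exact hd t h2.1 h2.2
  have hsp : f.Splits := IsAlgClosed.splits f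
  have hcard : f.roots.toFinset.card = δ := by
    rw [Multiset.toFinset_card_of_nodup hnd, ← hδ]
    exact hsp.natDegree_eq_card_roots.symm
  refine ⟨hcard, ?_⟩
  have hfs : f = Polynomial.C f.leadingCoeff * Lagrange.nodal f.roots.toFinset id := by
    have h1 := hsp.eq_prod_roots
    have h2 : (f.roots.map (fun a => Polynomial.X - Polynomial.C a)).prod =
        Lagrange.nodal f.roots.toFinset id := by
      rw [Lagrange.nodal_eq, Finset.prod, Multiset.toFinset_val, Multiset.dedup_eq_self.mpr hnd]
      rfl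
    rw [h2] at h1
    exact h1
  have hder : ∀ t ∈ f.roots.toFinset, Polynomial.eval t (Polynomial.derivative f) =
      f.leadingCoeff * ∏ j ∈ f.roots.toFinset.erase t, (t - j) := by
    intro t ht
    have h1 : Polynomial.derivative f = Polynomial.C f.leadingCoeff *
        Polynomial.derivative (Lagrange.nodal f.roots.toFinset id) := by
      conv_lhs => rw [hfs]
      rw [Polynomial.derivative_C_mul]
    rw [h1, Polynomial.eval_mul, Polynomial.eval_C]
    have h2 := Lagrange.eval_nodal_derivative_eval_node_eq (v := (id : ℂ → ℂ)) ht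
    rw [Lagrange.eval_nodal] at h2
    simp only [id] at h2
    rw [h2]
  have hmain := Lagrange.coeff_eq_sum (s := f.roots.toFinset) (v := (id : ℂ → ℂ))
    (Set.injOn_id _) (P := R) (by rw [hcard]; exact hR)
  rw [hcard] at hmain
  rw [hmain]
  refine Finset.sum_congr rfl fun t ht => ?_
  rw [hder t ht]
  simp only [id]
  rw [mul_div_mul_left _ _ hlc]

end Euler

section Abs

variable {P E L : Type} [CommRing P] [IsDomain P] [Field E] [Algebra P E] [IsFractionRing P E]
  [Field L] [Algebra P L] [IsFractionRing P L]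

omit [IsDomain P] in
private lemma exists_equiv (φ : P →+* P) (hφ : Function.Injective φ) (θ : P) (χ : Polynomial P)
    (hirr : Irreducible (χ.map (algebraMap P E))) (hroot : Polynomial.eval₂ φ θ χ = 0)
    (hsur : ∀ p : P, ∃ (s : P) (h : Polynomial P), s ≠ 0 ∧ φ s * p = Polynomial.eval₂ φ θ h)
    (u : E) (hu : u ≠ 0) (g : Polynomial E)
    (hg : g = χ.map (algebraMap P E) * Polynomial.C u) :
    ∃ ψ : AdjoinRoot g ≃+* L,
      ∀ K : Polynomial P, ψ (AdjoinRoot.mk g (K.map (algebraMap P E))) =
        algebraMap P L (Polynomial.eval₂ φ θ K) := by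
  have hgirr : Irreducible g := by
    have hun : IsUnit (Polynomial.C u) := Polynomial.isUnit_C.mpr (isUnit_iff_ne_zero.mpr hu)
    rw [hg]
    exact (irreducible_mul_isUnit hun).mpr hirr
  have : Fact (Irreducible g) := ⟨hgirr⟩
  have hinj : Function.Injective ((algebraMap P L).comp φ) := by
    rw [RingHom.coe_comp]
    exact (IsFractionRing.injective P L).comp hφ
  let j : E →+* L := IsFractionRing.lift hinj
  have hj : ∀ α : P, j (algebraMap P E α) = algebraMap P L (φ α) :=
    fun α => IsFractionRing.lift_algebraMap hinj α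
  have hjK : ∀ K : Polynomial P, Polynomial.eval₂ j (algebraMap P L θ)
      (K.map (algebraMap P E)) = algebraMap P L (Polynomial.eval₂ φ θ K) := by
    intro K
    rw [Polynomial.eval₂_map, Polynomial.hom_eval₂]
    congr 1
    ext α
    exact hj α
  have h0 : Polynomial.eval₂ j (algebraMap P L θ) g = 0 := by
    rw [hg, Polynomial.eval₂_mul, hjK, hroot, map_zero, zero_mul]
  let ψ₀ : AdjoinRoot g →+* L := AdjoinRoot.lift j (algebraMap P L θ) h0
  have hψ₀ : ∀ K : Polynomial P, ψ₀ (AdjoinRoot.mk g (K.map (algebraMap P E))) =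
      algebraMap P L (Polynomial.eval₂ φ θ K) := by
    intro K
    have h1 : ψ₀ (AdjoinRoot.mk g (K.map (algebraMap P E))) =
      Polynomial.eval₂ j (algebraMap P L θ) (K.map (algebraMap P E)) := AdjoinRoot.lift_mk h0 _
    rw [h1, hjK]
  have key : ∀ p : P, ∃ y, ψ₀ y = algebraMap P L p := by
    intro p
    obtain ⟨s, h, hs, he⟩ := hsur p
    refine ⟨AdjoinRoot.mk g (h.map (algebraMap P E)) /
      AdjoinRoot.mk g ((Polynomial.C s).map (algebraMap P E)), ?_⟩
    rw [map_div₀, hψ₀, hψ₀, Polynomial.eval₂_C, ← he, map_mul, mul_div_cancel_left₀]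
    intro h0
    exact hs (hφ (by
      rw [map_zero]
      exact (IsFractionRing.injective P L) (by rw [h0, map_zero])))
  have hsurj : Function.Surjective ψ₀ := by
    intro x
    obtain ⟨p, q, hq, rfl⟩ := IsFractionRing.div_surjective (A := P) x
    obtain ⟨y, hy⟩ := key p
    obtain ⟨z, hz⟩ := key q
    exact ⟨y / z, by rw [map_div₀, hy, hz]⟩
  exact ⟨RingEquiv.ofBijective ψ₀ ⟨ψ₀.injective, hsurj⟩, fun K => hψ₀ K⟩

private lemma exists_hom (E : Type) [Field E] [Algebra P E] [IsFractionRing P E]
    (φ : P →+* P) (hφ : Function.Injective φ) (θ : P) (χ : Polynomial P)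
    (hirr : Irreducible (χ.map (algebraMap P E))) (hroot : Polynomial.eval₂ φ θ χ = 0)
    (hsur : ∀ p : P, ∃ (s : P) (h : Polynomial P), s ≠ 0 ∧ φ s * p = Polynomial.eval₂ φ θ h)
    {G : Type} [CommRing G] (e0 : P →+* G) (he : ∀ d : P, d ≠ 0 → IsUnit (e0 d)) (t0 : G)
    (ht : Polynomial.eval₂ e0 t0 χ = 0) :
    ∃ Φ : L →+* G, ∀ K : Polynomial P, Φ (algebraMap P L (Polynomial.eval₂ φ θ K)) =
      Polynomial.eval₂ e0 t0 K := by
  obtain ⟨ψ, hψ⟩ := exists_equiv (E := E) (L := L) φ hφ θ χ hirr hroot hsur 1 one_ne_zero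
    (χ.map (algebraMap P E)) (by rw [Polynomial.C_1, mul_one])
  let eE : E →+* G := IsLocalization.lift (M := nonZeroDivisors P) (g := e0)
    (fun y => he y (nonZeroDivisors.ne_zero y.2))
  have heE : ∀ α, eE (algebraMap P E α) = e0 α := fun α => IsLocalization.lift_eq _ α
  have hK : ∀ K : Polynomial P, Polynomial.eval₂ eE t0 (K.map (algebraMap P E)) =
      Polynomial.eval₂ e0 t0 K := by
    intro K
    rw [Polynomial.eval₂_map]
    congr 1
    ext α
    exact heE α
  have h0 : Polynomial.eval₂ eE t0 (χ.map (algebraMap P E)) = 0 := by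
    rw [hK, ht]
  refine ⟨(AdjoinRoot.lift eE t0 h0).comp ψ.symm.toRingHom, fun K => ?_⟩
  rw [RingHom.comp_apply, ← hψ K]
  have h1 : ψ.symm.toRingHom (ψ (AdjoinRoot.mk _ (K.map (algebraMap P E)))) =
    AdjoinRoot.mk _ (K.map (algebraMap P E)) := ψ.symm_apply_apply _
  rw [h1, AdjoinRoot.lift_mk h0, hK]

private lemma exists_tr [CharZero P] (φ : P →+* P) (hφ : Function.Injective φ) (θ : P)
    (χ : Polynomial P)
    (hirr : Irreducible (χ.map (algebraMap P E))) (hroot : Polynomial.eval₂ φ θ χ = 0)
    (hsur : ∀ p : P, ∃ (s : P) (h : Polynomial P), s ≠ 0 ∧ φ s * p = Polynomial.eval₂ φ θ h)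
    (hχ : 0 < χ.natDegree) :
    ∃ tr : L →+ E, (∀ α x, tr (algebraMap P L (φ α) * x) = algebraMap P E α * tr x) ∧
      tr 1 = (χ.natDegree : E) ∧
      (∀ x : L, ∃ (D : P) (R : Polynomial P), D ≠ 0 ∧ R.degree < χ.natDegree ∧
        algebraMap P L (φ D) * x * algebraMap P L (Polynomial.eval₂ φ θ
          (Polynomial.derivative χ)) = algebraMap P L (φ χ.leadingCoeff) *
          algebraMap P L (Polynomial.eval₂ φ θ R) ∧
        tr x = algebraMap P E (R.coeff (χ.natDegree - 1)) / algebraMap P E D) ∧
      Polynomial.eval₂ φ θ (Polynomial.derivative χ) ≠ 0 := by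
  have hEinj : Function.Injective (algebraMap P E) := IsFractionRing.injective P E
  have hχ0 : χ ≠ 0 := by
    rintro rfl
    simp at hχ
  have hc0 : χ.leadingCoeff ≠ 0 := Polynomial.leadingCoeff_ne_zero.mpr hχ0
  have hcE : algebraMap P E χ.leadingCoeff ≠ 0 := by
    intro h
    exact hc0 (hEinj (by rw [h, map_zero]))
  have hu : (algebraMap P E χ.leadingCoeff)⁻¹ ≠ 0 := inv_ne_zero hcE
  obtain ⟨g, hgdef⟩ : ∃ g : Polynomial E, g = χ.map (algebraMap P E) *
    Polynomial.C (algebraMap P E χ.leadingCoeff)⁻¹ := ⟨_, rfl⟩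
  obtain ⟨ψ, hψ⟩ := exists_equiv (E := E) (L := L) φ hφ θ χ hirr hroot hsur _ hu g hgdef
  have hmap0 : χ.map (algebraMap P E) ≠ 0 := hirr.ne_zero
  have hmon : g.Monic := by
    have h1 := Polynomial.monic_mul_leadingCoeff_inv hmap0
    rw [Polynomial.leadingCoeff_map_of_injective hEinj, ← hgdef] at h1
    exact h1
  have hgnat : g.natDegree = χ.natDegree := by
    rw [hgdef, Polynomial.natDegree_mul_C hu, Polynomial.natDegree_map_eq_of_injective hEinj]
  have hgdeg : g.degree = χ.natDegree := by
    rw [Polynomial.degree_eq_natDegree hmon.ne_zero, hgnat]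
  have hψC : ∀ α : P, ψ.symm (algebraMap P L (φ α)) =
      AdjoinRoot.mk g (Polynomial.C (algebraMap P E α)) := by
    intro α
    have h1 := hψ (Polynomial.C α)
    rw [Polynomial.eval₂_C, Polynomial.map_C] at h1
    rw [← h1, RingEquiv.symm_apply_apply]
  have hsm : ∀ (c : E) (y : AdjoinRoot g), AdjoinRoot.mk g (Polynomial.C c) * y = c • y := by
    intro c y
    rw [Algebra.smul_def, AdjoinRoot.algebraMap_eq, AdjoinRoot.mk_C]
  have hgd : Polynomial.derivative g = (Polynomial.derivative χ).map (algebraMap P E) *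
      Polynomial.C (algebraMap P E χ.leadingCoeff)⁻¹ := by
    rw [hgdef, Polynomial.derivative_mul, Polynomial.derivative_C, mul_zero, add_zero,
      Polynomial.derivative_map]
  let T : L →+ E :=
    { toFun := fun x => (AdjoinRoot.modByMonicHom hmon (ψ.symm x *
        AdjoinRoot.mk g (Polynomial.derivative g))).coeff (χ.natDegree - 1)
      map_zero' := by rw [map_zero, zero_mul, map_zero, Polynomial.coeff_zero]
      map_add' := fun x y => by rw [map_add, add_mul, map_add, Polynomial.coeff_add] }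
  have hT : ∀ x, T x = (AdjoinRoot.modByMonicHom hmon (ψ.symm x *
        AdjoinRoot.mk g (Polynomial.derivative g))).coeff (χ.natDegree - 1) := fun x => rfl
  refine ⟨T, ?_, ?_, ?_, ?_⟩
  · intro α x
    rw [hT, hT, map_mul ψ.symm, hψC, hsm, smul_mul_assoc, map_smul, Polynomial.coeff_smul,
      smul_eq_mul]
  · rw [hT, map_one, one_mul, AdjoinRoot.modByMonicHom_mk,
      (Polynomial.modByMonic_eq_self_iff hmon).mpr
        (Polynomial.degree_derivative_lt hmon.ne_zero), Polynomial.coeff_derivative]
    have h1 : χ.natDegree - 1 + 1 = χ.natDegree := by omega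
    rw [h1]
    have h2 : g.coeff χ.natDegree = 1 := by
      rw [← hgnat]
      exact hmon
    rw [h2, one_mul]
    have h3 : ((χ.natDegree - 1 : ℕ) : E) + 1 = ((χ.natDegree - 1 + 1 : ℕ) : E) := by
      push_cast
      ring
    rw [h3, h1]
  · intro x
    obtain ⟨h, hh⟩ := AdjoinRoot.mk_surjective (ψ.symm x *
        AdjoinRoot.mk g (Polynomial.derivative g))
    have hr1 : T x = (h %ₘ g).coeff (χ.natDegree - 1) := by
      rw [hT, ← hh, AdjoinRoot.modByMonicHom_mk]
    have hr2 : AdjoinRoot.mk g (h %ₘ g) = ψ.symm x *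
        AdjoinRoot.mk g (Polynomial.derivative g) := by
      rw [← hh, ← AdjoinRoot.modByMonicHom_mk hmon]
      exact AdjoinRoot.mk_leftInverse hmon _
    have hr3 : (h %ₘ g).degree < χ.natDegree := by
      rw [← hgdeg]
      exact Polynomial.degree_modByMonic_lt h hmon
    obtain ⟨D, hDm, hD⟩ := IsLocalization.integerNormalization_spec (nonZeroDivisors P) (h %ₘ g)
    set R := IsLocalization.integerNormalization (nonZeroDivisors P) (h %ₘ g) with hRdef
    have hD0 : D ≠ 0 := nonZeroDivisors.ne_zero hDm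
    have hDE : algebraMap P E D ≠ 0 := fun h0 => hD0 (hEinj (by rw [h0, map_zero]))
    have hD' : R.map (algebraMap P E) = Polynomial.C (algebraMap P E D) * (h %ₘ g) := by
      rw [hD, ← Polynomial.smul_eq_C_mul, algebraMap_smul]
    refine ⟨D, R, hD0, ?_, ?_, ?_⟩
    · rw [← Polynomial.degree_map_eq_of_injective hEinj R, hD']
      refine lt_of_le_of_lt ?_ hr3
      rw [Polynomial.degree_C_mul hDE]
    · rw [← hψ (Polynomial.derivative χ), ← hψ R]
      have e1 : algebraMap P L (φ D) = ψ (AdjoinRoot.mk g (Polynomial.C (algebraMap P E D))) := by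
        rw [← hψC, RingEquiv.apply_symm_apply]
      have e2 : algebraMap P L (φ χ.leadingCoeff) =
          ψ (AdjoinRoot.mk g (Polynomial.C (algebraMap P E χ.leadingCoeff))) := by
        rw [← hψC, RingEquiv.apply_symm_apply]
      have e3 : x = ψ (ψ.symm x) := (RingEquiv.apply_symm_apply ψ x).symm
      have e4 : AdjoinRoot.mk g ((Polynomial.derivative χ).map (algebraMap P E)) =
          AdjoinRoot.mk g (Polynomial.derivative g) *
            AdjoinRoot.mk g (Polynomial.C (algebraMap P E χ.leadingCoeff)) := by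
        rw [← map_mul, hgd, mul_assoc, ← Polynomial.C_mul, inv_mul_cancel₀ hcE, Polynomial.C_1,
          mul_one]
      have e5 : AdjoinRoot.mk g (Polynomial.C (algebraMap P E D) * (h %ₘ g)) =
          AdjoinRoot.mk g (Polynomial.C (algebraMap P E D)) *
            (ψ.symm x * AdjoinRoot.mk g (Polynomial.derivative g)) := by
        rw [map_mul, hr2]
      rw [e1, e2, hD', e4, e5]
      conv_lhs => rw [e3]
      rw [← map_mul ψ, ← map_mul ψ, ← map_mul ψ]
      congr 1
      ring
    · rw [hr1, eq_div_iff hDE]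
      have h5 : (R.map (algebraMap P E)).coeff (χ.natDegree - 1) =
          algebraMap P E D * (h %ₘ g).coeff (χ.natDegree - 1) := by
        rw [hD', Polynomial.coeff_C_mul]
      rw [Polynomial.coeff_map] at h5
      rw [h5, mul_comm]
  · intro h0
    have h1 := hψ (Polynomial.derivative χ)
    rw [h0, map_zero] at h1
    have h2 : AdjoinRoot.mk g ((Polynomial.derivative χ).map (algebraMap P E)) = 0 := by
      apply ψ.injective
      rw [h1, map_zero]
    rw [AdjoinRoot.mk_eq_zero] at h2
    have h3 : (Polynomial.derivative χ).map (algebraMap P E) ≠ 0 := by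
      intro h4
      have h5 : Polynomial.derivative χ = 0 :=
        Polynomial.map_injective _ hEinj (by rw [h4, Polynomial.map_zero])
      have h6 := Polynomial.derivative_eq_zero.mp h5
      omega
    have h4 := Polynomial.degree_le_of_dvd h2 h3
    rw [Polynomial.degree_map_eq_of_injective hEinj, hgdeg,
      ← Polynomial.degree_eq_natDegree hχ0] at h4
    exact absurd (Polynomial.degree_derivative_lt hχ0) (not_lt.mpr h4)

end Abs

/-- the filter of Zariski dense open sets of the base -/
private def gf {M : ℕ} {W : Type} (g : W → (Fin M → ℂ)) : Filter W where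
  sets := {S | ∃ D : MvPolynomial (Fin M) ℂ, D ≠ 0 ∧ ∀ x, ev D (g x) ≠ 0 → x ∈ S}
  univ_sets := ⟨1, one_ne_zero, fun _ _ => trivial⟩
  sets_of_superset := by
    rintro S S' ⟨D, hD, h⟩ hS
    exact ⟨D, hD, fun x hx => hS (h x hx)⟩
  inter_sets := by
    rintro S S' ⟨D, hD, h⟩ ⟨D', hD', h'⟩
    refine ⟨D * D', mul_ne_zero hD hD', fun x hx => ?_⟩
    simp only [ev, map_mul] at hx
    exact ⟨h x (left_ne_zero_of_mul hx), h' x (right_ne_zero_of_mul hx)⟩

private lemma gf_ev {M : ℕ} {W : Type} (g : W → (Fin M → ℂ)) (p : W → Prop) :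
    (∀ᶠ x in gf g, p x) ↔ ∃ D : MvPolynomial (Fin M) ℂ, D ≠ 0 ∧ ∀ x, ev D (g x) ≠ 0 → p x :=
  Iff.rfl

private lemma germ_unit {W : Type} (F : Filter W) (f : W → ℂ)
    (h : IsUnit (f : Filter.Germ F ℂ)) : ∀ᶠ x in F, f x ≠ 0 := by
  obtain ⟨b, hb⟩ := isUnit_iff_exists_inv.mp h
  induction b using Filter.Germ.inductionOn with
  | _ k =>
    rw [← Filter.Germ.coe_mul, ← Filter.Germ.coe_one, Filter.Germ.coe_eq] at hb
    filter_upwards [hb] with x hx h0
    simp [h0] at hx

private lemma unit_germ {W : Type} (F : Filter W) (f : W → ℂ)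
    (h : ∀ᶠ x in F, f x ≠ 0) : IsUnit (f : Filter.Germ F ℂ) := by
  rw [isUnit_iff_exists_inv]
  refine ⟨((fun x => (f x)⁻¹ : W → ℂ) : Filter.Germ F ℂ), ?_⟩
  rw [← Filter.Germ.coe_mul, ← Filter.Germ.coe_one, Filter.Germ.coe_eq]
  filter_upwards [h] with x hx
  simp [hx]

theorem hTRC (hTPE : StTPE) : StTRC := by
  classical
  intro M a ha
  obtain ⟨θ, χ, hδ, hirr, hroot, hsur⟩ := hTPE M a ha
  have hφ : Function.Injective ((aeval a : MvPolynomial (Fin M) ℂ →ₐ[ℂ] MvPolynomial (Fin M) ℂ) :
      MvPolynomial (Fin M) ℂ →+* MvPolynomial (Fin M) ℂ) := ha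
  have hφa : ∀ α, ((aeval a : MvPolynomial (Fin M) ℂ →ₐ[ℂ] MvPolynomial (Fin M) ℂ) :
      MvPolynomial (Fin M) ℂ →+* MvPolynomial (Fin M) ℂ) α = aeval a α := fun α => rfl
  generalize hφd : ((aeval a : MvPolynomial (Fin M) ℂ →ₐ[ℂ] MvPolynomial (Fin M) ℂ) :
      MvPolynomial (Fin M) ℂ →+* MvPolynomial (Fin M) ℂ) = φ at hroot hsur hφ hφa
  have hsur' : ∀ p : MvPolynomial (Fin M) ℂ, ∃ (s : MvPolynomial (Fin M) ℂ)
      (h : Polynomial (MvPolynomial (Fin M) ℂ)), s ≠ 0 ∧ φ s * p =
        Polynomial.eval₂ φ θ h := by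
    intro p
    obtain ⟨s, h, hs, he⟩ := hsur p
    exact ⟨s, h, hs, by rw [hφa]; exact he⟩
  obtain ⟨T, hlin, hone, hfor, hder⟩ :=
    exists_tr (E := KK M) (L := KK M) φ hφ θ χ hirr hroot hsur' hδ
  refine ⟨χ.natDegree, T, hδ, ?_, hone, ?_⟩
  · intro α x
    have h1 := hlin α x
    rw [hφa] at h1
    exact h1
  · intro p q hq
    obtain ⟨D, R, hD, hR, hE, hT⟩ := hfor (emb p / emb q)
    -- the generic point of the fibres
    let V : Type := {x : (Fin M → ℂ) × ℂ // Polynomial.eval₂ (MvPolynomial.eval x.1) x.2 χ = 0}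
    let F : Filter V := gf (fun x : V => x.1.1)
    let e1 : MvPolynomial (Fin M) ℂ →+* (V → ℂ) :=
      RingHom.pi (fun x : V => MvPolynomial.eval x.1.1)
    let t1 : V → ℂ := fun x => x.1.2
    have h1 : ∀ K : Polynomial (MvPolynomial (Fin M) ℂ), Polynomial.eval₂ e1 t1 K =
        fun x : V => Polynomial.eval₂ (MvPolynomial.eval x.1.1) x.1.2 K := by
      intro K
      funext x
      have h2 := Polynomial.hom_eval₂ K e1 (Pi.evalRingHom (fun _ : V => ℂ) x) t1
      exact h2
    let e0 : MvPolynomial (Fin M) ℂ →+* Filter.Germ F ℂ := (Filter.Germ.coeRingHom F).comp e1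
    let t0 : Filter.Germ F ℂ := (t1 : Filter.Germ F ℂ)
    have h2 : ∀ K : Polynomial (MvPolynomial (Fin M) ℂ), Polynomial.eval₂ e0 t0 K =
        ((fun x : V => Polynomial.eval₂ (MvPolynomial.eval x.1.1) x.1.2 K : V → ℂ) :
          Filter.Germ F ℂ) := by
      intro K
      have h3 := Polynomial.hom_eval₂ K e1 (Filter.Germ.coeRingHom F) t1
      rw [h1 K] at h3
      exact h3.symm
    have he0 : ∀ d : MvPolynomial (Fin M) ℂ, e0 d =
        ((fun x : V => ev d x.1.1 : V → ℂ) : Filter.Germ F ℂ) := fun d => rfl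
    have he : ∀ d : MvPolynomial (Fin M) ℂ, d ≠ 0 → IsUnit (e0 d) := by
      intro d hd
      rw [he0]
      apply unit_germ
      exact (gf_ev _ _).mpr ⟨d, hd, fun x hx => hx⟩
    have ht : Polynomial.eval₂ e0 t0 χ = 0 := by
      rw [h2 χ, ← Filter.Germ.coe_zero, Filter.Germ.coe_eq]
      exact Filter.Eventually.of_forall fun x => x.2
    obtain ⟨Φ, hΦ0⟩ := exists_hom (L := KK M) (KK M) φ hφ θ χ hirr hroot hsur' e0 he t0 ht
    have hΦ : ∀ K : Polynomial (MvPolynomial (Fin M) ℂ), Φ (emb (Polynomial.eval₂ φ θ K)) =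
      Polynomial.eval₂ e0 t0 K := hΦ0
    have hembinj := IsFractionRing.injective (MvPolynomial (Fin M) ℂ) (KK M)
    have hembm : ∀ x y : MvPolynomial (Fin M) ℂ, emb (x * y) = emb x * emb y :=
      fun x y => map_mul _ _ _
    have hemb0 : ∀ x : MvPolynomial (Fin M) ℂ, x ≠ 0 → emb x ≠ 0 :=
      fun x hx h0 => hx (hembinj (h0.trans (map_zero _).symm))
    have hrep : ∀ l : Fin M, ∃ z : V → ℂ, (z : Filter.Germ F ℂ) =
        Φ (emb (X l : MvPolynomial (Fin M) ℂ)) := by
      intro l
      induction Φ (emb (X l : MvPolynomial (Fin M) ℂ)) using Filter.Germ.inductionOn with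
      | _ k => exact ⟨k, rfl⟩
    choose z hz using hrep
    have hΦp : ∀ f : MvPolynomial (Fin M) ℂ, Φ (emb f) =
        ((fun x : V => ev f (fun l => z l x) : V → ℂ) : Filter.Germ F ℂ) := by
      intro f
      have h3 : Φ.comp (algebraMap (MvPolynomial (Fin M) ℂ) (KK M)) =
          (Filter.Germ.coeRingHom F).comp
            (RingHom.pi (fun x : V => MvPolynomial.eval (fun l => z l x))) := by
        apply MvPolynomial.ringHom_ext
        · intro c
          have h4 := hΦ (Polynomial.C (C c))
          rw [Polynomial.eval₂_C, Polynomial.eval₂_C, hφa, he0] at h4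
          have h5 : aeval a (C c : MvPolynomial (Fin M) ℂ) = (C c : MvPolynomial (Fin M) ℂ) := by
            rw [MvPolynomial.aeval_C]
            rfl
          rw [h5] at h4
          rw [RingHom.comp_apply, h4]
          simp only [RingHom.comp_apply, ev, MvPolynomial.eval_C]
          have h6 : (RingHom.pi (fun x : V => MvPolynomial.eval (fun l => z l x))) (C c) =
            fun _ => c := by
            funext x
            simp
          rw [h6]
          rfl
        · intro l
          rw [RingHom.comp_apply, RingHom.comp_apply]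
          have h6 : (RingHom.pi (fun x : V => MvPolynomial.eval (fun l => z l x))) (X l) =
            z l := by
            funext x
            simp
          rw [h6]
          exact (hz l).symm
      have h4 := congrArg (fun k : MvPolynomial (Fin M) ℂ →+* Filter.Germ F ℂ => k f) h3
      exact h4
    choose s h hs0 hsh using fun l : Fin M => hsur' (X l)
    -- generic identities
    have g1 : ∀ i, ∀ᶠ x in F, ev (a i) (fun l => z l x) = x.1.1 i := by
      intro i
      have h4 := hΦ (Polynomial.C (X i))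
      rw [Polynomial.eval₂_C, Polynomial.eval₂_C, hφa, he0, MvPolynomial.aeval_X, hΦp,
        Filter.Germ.coe_eq] at h4
      filter_upwards [h4] with x hx
      rw [hx]
      simp [ev]
    have g2 : ∀ᶠ x in F, ev θ (fun l => z l x) = x.1.2 := by
      have h4 := hΦ Polynomial.X
      rw [Polynomial.eval₂_X, Polynomial.eval₂_X, hΦp] at h4
      exact Filter.Germ.coe_eq.mp h4
    have g3 : ∀ᶠ x in F, ev q (fun l => z l x) ≠ 0 := by
      apply germ_unit
      rw [← hΦp]
      exact (isUnit_iff_ne_zero.mpr (hemb0 q hq)).map Φ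
    have g4 : ∀ i, ∀ᶠ x in F, ev (s i) x.1.1 * z i x =
        Polynomial.eval₂ (MvPolynomial.eval x.1.1) x.1.2 (h i) := by
      intro i
      have h4 := hΦ (h i)
      rw [← hsh i, hembm, map_mul Φ] at h4
      have h5 := hΦ (Polynomial.C (s i))
      rw [Polynomial.eval₂_C, Polynomial.eval₂_C, he0] at h5
      rw [h5, ← hz i, h2, ← Filter.Germ.coe_mul] at h4
      exact Filter.Germ.coe_eq.mp h4
    have g5 : ∀ᶠ x in F, Polynomial.eval₂ (MvPolynomial.eval x.1.1) x.1.2
        (Polynomial.derivative χ) ≠ 0 := by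
      apply germ_unit
      rw [← h2, ← hΦ]
      exact (isUnit_iff_ne_zero.mpr (hemb0 _ hder)).map Φ
    have g6 : ∀ᶠ x in F, ev D x.1.1 * ev p (fun l => z l x) *
        Polynomial.eval₂ (MvPolynomial.eval x.1.1) x.1.2 (Polynomial.derivative χ) =
        ev χ.leadingCoeff x.1.1 * Polynomial.eval₂ (MvPolynomial.eval x.1.1) x.1.2 R *
          ev q (fun l => z l x) := by
      have hq0 : emb q ≠ 0 := hemb0 q hq
      have h4 : emb (φ D) * emb p * emb (Polynomial.eval₂ φ θ (Polynomial.derivative χ)) =
          emb (φ χ.leadingCoeff) * emb (Polynomial.eval₂ φ θ R) * emb q := by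
        have h5 : emb (φ D) * (emb p / emb q) *
            emb (Polynomial.eval₂ φ θ (Polynomial.derivative χ)) * emb q =
            emb (φ χ.leadingCoeff) * emb (Polynomial.eval₂ φ θ R) * emb q := by
          rw [show emb (φ D) * (emb p / emb q) *
            emb (Polynomial.eval₂ φ θ (Polynomial.derivative χ)) = _ from hE]
        rw [← h5]
        field_simp
      have h5 := congrArg Φ h4
      rw [map_mul Φ, map_mul Φ, map_mul Φ, map_mul Φ, hΦp p, hΦp q,
        hΦ (Polynomial.derivative χ), hΦ R, h2, h2] at h5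
      have h6 := hΦ (Polynomial.C D)
      rw [Polynomial.eval₂_C, Polynomial.eval₂_C, he0] at h6
      have h7 := hΦ (Polynomial.C χ.leadingCoeff)
      rw [Polynomial.eval₂_C, Polynomial.eval₂_C, he0] at h7
      rw [h6, h7, ← Filter.Germ.coe_mul, ← Filter.Germ.coe_mul, ← Filter.Germ.coe_mul,
        ← Filter.Germ.coe_mul] at h5
      exact Filter.Germ.coe_eq.mp h5
    have gall : ∀ᶠ x in F, ((∀ i, ev (a i) (fun l => z l x) = x.1.1 i) ∧
        ev θ (fun l => z l x) = x.1.2 ∧ ev q (fun l => z l x) ≠ 0 ∧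
        (∀ i, ev (s i) x.1.1 * z i x =
          Polynomial.eval₂ (MvPolynomial.eval x.1.1) x.1.2 (h i)) ∧
        Polynomial.eval₂ (MvPolynomial.eval x.1.1) x.1.2 (Polynomial.derivative χ) ≠ 0 ∧
        ev D x.1.1 * ev p (fun l => z l x) *
          Polynomial.eval₂ (MvPolynomial.eval x.1.1) x.1.2 (Polynomial.derivative χ) =
          ev χ.leadingCoeff x.1.1 * Polynomial.eval₂ (MvPolynomial.eval x.1.1) x.1.2 R *
            ev q (fun l => z l x)) := by
      filter_upwards [Filter.eventually_all.mpr g1, g2, g3, Filter.eventually_all.mpr g4, g5, g6]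
        with x k1 k2 k3 k4 k5 k6
      exact ⟨k1, k2, k3, k4, k5, k6⟩
    obtain ⟨D₁, hD₁, hall⟩ := (gf_ev _ _).mp gall
    have hχ0 : χ ≠ 0 := by
      rintro rfl
      simp at hδ
    have hc0 : χ.leadingCoeff ≠ 0 := Polynomial.leadingCoeff_ne_zero.mpr hχ0
    set W : MvPolynomial (Fin M) ℂ := D₁ * χ.leadingCoeff * ∏ i, s i with hW
    have hW0 : W ≠ 0 := mul_ne_zero (mul_ne_zero hD₁ hc0)
      (Finset.prod_ne_zero_iff.mpr fun i _ => hs0 i)
    refine ⟨R.coeff (χ.natDegree - 1) * W, D * W, mul_ne_zero hD hW0, ?_, ?_⟩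
    · rw [hT]
      have h4 : emb W ≠ 0 := hemb0 W hW0
      rw [hembm (R.coeff _), hembm D]
      exact (mul_div_mul_right _ _ h4).symm
    · intro v hv
      simp only [ev, map_mul, hW, map_prod] at hv
      have hvD : ev D v ≠ 0 := left_ne_zero_of_mul hv
      have hv2 := right_ne_zero_of_mul hv
      have hvW : ev W v ≠ 0 := by
        simp only [ev, map_mul, hW, map_prod]
        exact hv2
      have hvs : ∀ i, ev (s i) v ≠ 0 := fun i =>
        Finset.prod_ne_zero_iff.mp (right_ne_zero_of_mul hv2) i (Finset.mem_univ i)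
      have hvD₁ : ev D₁ v ≠ 0 := left_ne_zero_of_mul (left_ne_zero_of_mul hv2)
      have hvc : ev χ.leadingCoeff v ≠ 0 := right_ne_zero_of_mul (left_ne_zero_of_mul hv2)
      -- the specialization
      set f : Polynomial ℂ := χ.map (MvPolynomial.eval v) with hf
      have hfn : f.natDegree = χ.natDegree := Polynomial.natDegree_map_of_leadingCoeff_ne_zero _ hvc
      have hflc : f.leadingCoeff = ev χ.leadingCoeff v :=
        Polynomial.leadingCoeff_map_of_leadingCoeff_ne_zero _ hvc
      have hfe : ∀ t, Polynomial.eval t f = Polynomial.eval₂ (MvPolynomial.eval v) t χ :=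
        fun t => Polynomial.eval_map _ _
      have hfd : ∀ t, Polynomial.eval t (Polynomial.derivative f) =
          Polynomial.eval₂ (MvPolynomial.eval v) t (Polynomial.derivative χ) := by
        intro t
        rw [hf, Polynomial.derivative_map, Polynomial.eval_map]
      have hf0 : f ≠ 0 := by
        intro h6
        rw [h6, Polynomial.natDegree_zero] at hfn
        omega
      let zz : ℂ → (Fin M → ℂ) := fun t =>
        if ht : Polynomial.eval₂ (MvPolynomial.eval v) t χ = 0 then
          (fun l => z l (⟨(v, t), ht⟩ : V)) else 0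
      have hzz : ∀ t (ht : Polynomial.eval₂ (MvPolynomial.eval v) t χ = 0),
          zz t = (fun l => z l (⟨(v, t), ht⟩ : V)) := by
        intro t ht
        simp only [zz, dif_pos ht]
      have hp : ∀ t, Polynomial.eval₂ (MvPolynomial.eval v) t χ = 0 →
          (∀ i, ev (a i) (zz t) = v i) ∧ ev θ (zz t) = t ∧ ev q (zz t) ≠ 0 ∧
          (∀ i, ev (s i) v * zz t i = Polynomial.eval₂ (MvPolynomial.eval v) t (h i)) ∧
          Polynomial.eval₂ (MvPolynomial.eval v) t (Polynomial.derivative χ) ≠ 0 ∧
          ev D v * ev p (zz t) *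
            Polynomial.eval₂ (MvPolynomial.eval v) t (Polynomial.derivative χ) =
            ev χ.leadingCoeff v * Polynomial.eval₂ (MvPolynomial.eval v) t R *
              ev q (zz t) := by
        intro t ht
        have h4 := hall (⟨(v, t), ht⟩ : V) hvD₁
        rw [hzz t ht]
        exact h4
      have hRv : (R.map (MvPolynomial.eval v)).degree < (χ.natDegree : WithBot ℕ) :=
        lt_of_le_of_lt Polynomial.degree_map_le hR
      obtain ⟨hcard, hsum⟩ := euler f (R.map (MvPolynomial.eval v)) χ.natDegree hfn hδ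
        (fun t ht => by
          rw [hfd]
          exact (hp t (by rw [← hfe]; exact ht)).2.2.2.2.1) hRv
      have hmem : ∀ t, t ∈ f.roots.toFinset ↔
          Polynomial.eval₂ (MvPolynomial.eval v) t χ = 0 := by
        intro t
        rw [Multiset.mem_toFinset, Polynomial.mem_roots hf0, Polynomial.IsRoot.def, hfe]
      have hinj : Set.InjOn zz (f.roots.toFinset : Set ℂ) := by
        intro t ht t' ht' he'
        have k1 := (hp t ((hmem t).mp ht)).2.1
        have k2 := (hp t' ((hmem t').mp ht')).2.1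
        rw [← k1, ← k2, he']
      refine ⟨f.roots.toFinset.image zz, ?_, ?_, ?_, ?_⟩
      · rw [Finset.card_image_of_injOn hinj, hcard]
      · intro ζ
        rw [Finset.mem_image]
        constructor
        · rintro ⟨t, ht, rfl⟩
          funext i
          exact (hp t ((hmem t).mp ht)).1 i
        · intro hζ
          have hcomp : (MvPolynomial.eval ζ).comp φ = MvPolynomial.eval v := by
            apply MvPolynomial.ringHom_ext
            · intro c
              rw [RingHom.comp_apply, hφa, MvPolynomial.aeval_C, MvPolynomial.eval_C]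
              simp
            · intro i
              rw [RingHom.comp_apply, hφa, MvPolynomial.aeval_X, MvPolynomial.eval_X]
              exact congrFun hζ i
          have ht : Polynomial.eval₂ (MvPolynomial.eval v) (ev θ ζ) χ = 0 := by
            have h4 := Polynomial.hom_eval₂ χ φ (MvPolynomial.eval ζ) θ
            rw [hroot, map_zero, hcomp] at h4
            exact h4.symm
          refine ⟨ev θ ζ, (hmem _).mpr ht, ?_⟩
          funext i
          have h4 := (hp _ ht).2.2.2.1 i
          have h5 := congrArg (MvPolynomial.eval ζ) (hsh i)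
          rw [map_mul, Polynomial.hom_eval₂, hcomp, MvPolynomial.eval_X] at h5
          have h6 : MvPolynomial.eval ζ (φ (s i)) = ev (s i) v :=
            congrArg (fun k : MvPolynomial (Fin M) ℂ →+* ℂ => k (s i)) hcomp
          rw [h6] at h5
          have h7 : ev (s i) v * zz (ev θ ζ) i = ev (s i) v * ζ i := by
            rw [h4, h5]
          exact mul_left_cancel₀ (hvs i) h7
      · intro ζ hζ
        rw [Finset.mem_image] at hζ
        obtain ⟨t, ht, rfl⟩ := hζ
        exact (hp t ((hmem t).mp ht)).2.2.1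
      · rw [Finset.sum_image hinj]
        have h4 : ev (R.coeff (χ.natDegree - 1) * W) v / ev (D * W) v =
            ev (R.coeff (χ.natDegree - 1)) v / ev D v := by
          have h5 : ∀ x y : MvPolynomial (Fin M) ℂ, ev (x * y) v = ev x v * ev y v :=
            fun x y => map_mul _ _ _
          rw [h5 (R.coeff _) W, h5 D W, mul_div_mul_right _ _ hvW]
        rw [h4]
        have h5 : ev (R.coeff (χ.natDegree - 1)) v =
            (R.map (MvPolynomial.eval v)).coeff (χ.natDegree - 1) := by
          rw [Polynomial.coeff_map]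
        rw [h5, ← hsum, Finset.sum_div]
        refine Finset.sum_congr rfl fun t ht => ?_
        obtain ⟨k1, k2, k3, k4, k5, k6⟩ := hp t ((hmem t).mp ht)
        rw [hflc, hfd, Polynomial.eval_map, div_div, div_eq_div_iff (mul_ne_zero k5 hvD) k3]
        linear_combination -k6

end Pool.Agent.Helper76.KPA
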